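import Pool.Agent.HalfDiff.SD.CertE

namespace Pool.Agent.HalfDiff.SD

variable {a : ℕ → ℕ}

/-- a table of values `(r, o, t)`: the window entry with offset `o` at level `t` is `r` -/
def okTab (u m : ℕ) (L : List (ℕ × ℕ × ℕ)) : Bool :=
  L.all fun e => Nat.ble (e.2.1 + 1) (2 ^ e.2.2) && lastIs e.1 0 (win u m e.2.2 (e.2.1 + 1))

theorem okTab_sound (G : Good a) {D u m : ℕ} (hS : St a D u m) {L : List (ℕ × ℕ × ℕ)}
    (h : okTab u m L = true) : ∀ r, r ∈ L.map Prod.fst → ∃ N, 1 ≤ N ∧ a N = r := by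
  intro r hr
  obtain ⟨e, he, rfl⟩ := List.mem_map.mp hr
  have h1 := List.all_eq_true.mp h e he
  rw [Bool.and_eq_true] at h1
  exact val_of G hS (Nat.le_of_ble_eq_true h1.1) h1.2

def tab0 : List (ℕ × ℕ × ℕ) :=
  [(53, 1, 8), (163, 19, 14), (227, 117, 18), (239, 39, 16), (241, 15, 14), (244, 5, 14), 
   (251, 81, 17), (274, 169, 17), (397, 57, 14), (439, 157, 18), (457, 127, 16), 
   (467, 115, 18), (487, 19, 16), (538, 245, 18), (716, 89, 20), (727, 15, 16), 
   (733, 45, 19), (746, 97, 19), (758, 145, 21), (766, 181, 21), (772, 157, 19), 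
   (776, 217, 19), (796, 205, 19), (866, 289, 21), (958, 337, 21), (983, 331, 22), (1, 0, 0), 
   (2, 1, 1), (8, 1, 5), (256, 85, 17)]

theorem tab0_ok : okTab 1 1 tab0 = true := by decide +kernel

def tab1 : List (ℕ × ℕ × ℕ) :=
  [(89, 1, 6), (122, 89, 14), (134, 1, 7), (137, 9, 11), (269, 1, 8), (271, 19, 12), 
   (382, 113, 16), (401, 39, 14), (404, 1, 9), (409, 45, 15), (422, 97, 15), (428, 109, 13), 
   (436, 169, 15), (443, 165, 17), (452, 217, 15), (526, 319, 17), (542, 289, 17), 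
   (557, 119, 13), (647, 129, 14), (659, 105, 14), (712, 757, 19), (787, 121, 16), 
   (797, 97, 16), (809, 1, 10), (811, 19, 14), (827, 231, 14), (838, 421, 17), 
   (976, 251, 18), (977, 261, 20), (4, 1, 1)]

theorem tab1_ok : okTab 1 5 tab1 = true := by decide +kernel

def tab2 : List (ℕ × ℕ × ℕ) :=
  [(106, 37, 13), (157, 1, 8), (218, 41, 14), (223, 39, 14), (233, 15, 12), (268, 37, 15), 
   (283, 81, 15), (421, 97, 16), (461, 43, 14), (466, 457, 15), (491, 19, 14), 
   (502, 589, 19), (508, 689, 18), (514, 197, 16), (536, 377, 18), (613, 339, 17), 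
   (631, 185, 17), (632, 1229, 18), (634, 101, 16), (664, 89, 18), (692, 263, 20), 
   (698, 391, 19), (709, 39, 16), (719, 15, 14), (724, 1, 11), (734, 5, 14), (739, 9, 15), 
   (769, 81, 17), (794, 85, 17), (824, 121, 15), (829, 177, 19), (839, 135, 17), 
   (859, 147, 17), (877, 217, 16), (898, 913, 21), (914, 181, 19), (934, 565, 25), 
   (944, 157, 17), (967, 369, 18), (998, 991, 17)]

theorem tab2_ok : okTab 5 3 tab2 = true := by decide +kernel

def tab3 : List (ℕ × ℕ × ℕ) :=
  [(59, 9, 9), (83, 1, 6), (97, 19, 10), (107, 39, 12), (142, 5, 10), (149, 9, 11), 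
   (226, 85, 13), (263, 1, 8), (277, 19, 12), (293, 117, 16), (314, 89, 16), (346, 305, 14), 
   (356, 53, 12), (398, 1, 9), (412, 5, 12), (419, 9, 13), (454, 61, 15), (524, 97, 15), 
   (593, 133, 16), (619, 57, 12), (626, 379, 19), (661, 81, 14), (677, 115, 16), 
   (691, 109, 16), (761, 55, 12), (823, 159, 18), (853, 219, 17), (887, 101, 15), 
   (907, 165, 18), (971, 137, 17), (128, 1, 7)]

theorem tab3_ok : okTab 7 5 tab3 = true := by decide +kernel

def tab4 : List (ℕ × ℕ × ℕ) :=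
  [(47, 1, 6), (109, 45, 13), (229, 15, 12), (236, 1, 9), (257, 9, 13), (278, 37, 15), 
   (292, 61, 15), (334, 85, 15), (337, 159, 18), (349, 57, 12), (353, 115, 16), 
   (359, 107, 13), (362, 97, 15), (446, 145, 17), (479, 1, 10), (488, 181, 17), 
   (521, 41, 15), (596, 101, 16), (617, 117, 18), (662, 281, 18), (673, 75, 18), 
   (694, 41, 16), (701, 39, 16), (743, 9, 15), (757, 45, 17), (764, 37, 17), (778, 61, 17), 
   (788, 329, 18), (802, 245, 16), (848, 97, 17), (862, 121, 15), (863, 193, 18), 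
   (883, 135, 17), (904, 133, 19), (911, 147, 17), (932, 145, 19), (953, 189, 19)]

theorem tab4_ok : okTab 7 3 tab4 = true := by decide +kernel

def tab5 : List (ℕ × ℕ × ℕ) :=
  [(61, 15, 8), (188, 1, 7), (191, 9, 11), (193, 45, 13), (194, 37, 13), (202, 85, 13), 
   (206, 97, 13), (214, 133, 15), (307, 57, 10), (313, 81, 12), (347, 133, 14), 
   (373, 43, 12), (376, 245, 14), (379, 19, 12), (478, 221, 12), (499, 189, 16), 
   (554, 89, 16), (562, 41, 14), (563, 39, 14), (566, 1, 9), (568, 5, 12), (569, 9, 13), 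
   (571, 45, 15), (584, 97, 15), (604, 181, 17), (929, 105, 14), (937, 57, 12), 
   (964, 727, 23), (997, 225, 12), (64, 5, 8)]

theorem tab5_ok : okTab 1 7 tab5 = true := by decide +kernel

def tab6 : List (ℕ × ℕ × ℕ) :=
  []

theorem tab6_ok : okTab 3 11 tab6 = true := by decide +kernel

def tab7 : List (ℕ × ℕ × ℕ) :=
  [(103, 9, 11), (151, 1, 8), (158, 61, 13), (166, 53, 12), (173, 19, 12), (199, 39, 14), 
   (254, 5, 12), (298, 37, 15), (311, 135, 18), (317, 57, 12), (326, 109, 13), (331, 81, 15), 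
   (386, 85, 15), (431, 43, 14), (458, 157, 15), (472, 175, 17), (541, 41, 15), 
   (586, 89, 18), (607, 101, 15), (641, 75, 18), (643, 113, 13), (652, 53, 14), 
   (674, 41, 16), (718, 1, 11), (751, 9, 15), (773, 45, 17), (872, 85, 17), (892, 827, 18), 
   (916, 97, 17), (919, 163, 18), (941, 157, 18), (982, 109, 15), (16, 1, 5)]

theorem tab7_ok : okTab 11 3 tab7 = true := by decide +kernel

def tab8 : List (ℕ × ℕ × ℕ) :=
  []

theorem tab8_ok : okTab 9 5 tab8 = true := by decide +kernel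

def tab9 : List (ℕ × ℕ × ℕ) :=
  [(94, 77, 10), (118, 37, 11), (167, 15, 10), (178, 1, 7), (181, 41, 11), (211, 9, 11), 
   (332, 85, 13), (367, 1, 8), (389, 19, 12), (424, 89, 16), (433, 41, 13), (523, 39, 14), 
   (556, 1, 9), (577, 161, 13), (622, 37, 15), (668, 263, 18), (842, 133, 17), 
   (856, 529, 19), (857, 57, 12), (878, 505, 19), (881, 121, 16), (886, 145, 17), 
   (922, 631, 15), (947, 109, 16), (956, 335, 20), (974, 181, 17), (991, 97, 16), 
   (512, 41, 14)]

theorem tab9_ok : okTab 11 7 tab9 = true := by decide +kernel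

def tab10 : List (ℕ × ℕ × ℕ) :=
  [(67, 9, 9), (79, 1, 6), (101, 19, 10), (113, 15, 10), (146, 5, 10), (179, 45, 13), 
   (212, 61, 13), (262, 89, 16), (281, 19, 12), (302, 209, 18), (383, 15, 12), 
   (388, 121, 13), (394, 1, 9), (449, 45, 15), (482, 61, 15), (503, 251, 17), (547, 293, 17), 
   (548, 85, 15), (587, 57, 12), (599, 159, 18), (653, 81, 14), (808, 209, 16), 
   (821, 19, 14)]

theorem tab10_ok : okTab 11 5 tab10 = true := by decide +kernel

def tab11 : List (ℕ × ℕ × ℕ) :=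
  [(71, 11, 5), (73, 9, 9), (127, 9, 11), (131, 25, 6), (139, 1, 8), (197, 15, 12), 
   (284, 157, 15), (316, 313, 15), (358, 37, 15), (463, 1, 10), (509, 19, 14), (601, 41, 15), 
   (614, 41, 16), (628, 349, 17), (683, 15, 14), (706, 1, 11), (752, 5, 14), (818, 109, 15), 
   (844, 37, 17), (908, 263, 20), (926, 287, 22), (32, 1, 3)]

theorem tab11_ok : okTab 23 3 tab11 = true := by decide +kernel

/-- all tabulated values -/
def allr : List ℕ :=
  tab0.map Prod.fst ++ tab1.map Prod.fst ++ tab2.map Prod.fst ++ tab3.map Prod.fst ++ tab4.map Prod.fst ++ tab5.map Prod.fst ++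
  tab6.map Prod.fst ++ tab7.map Prod.fst ++ tab8.map Prod.fst ++ tab9.map Prod.fst ++ tab10.map Prod.fst ++ tab11.map Prod.fst

def smallPrimes : List ℕ := [3, 5, 7, 11, 13, 17, 19, 23, 29, 31, 37, 41, 43]

def cov (r : ℕ) : Bool := smallPrimes.any (fun q => Nat.beq (r % q) 0) || allr.any (Nat.beq r)

def covAll : ℕ → Bool
  | 0 => true
  | n + 1 => cov (n + 1) && covAll n

theorem covAll_ok : covAll 1000 = true := by decide +kernel

theorem covAll_sound : ∀ n, covAll n = true → ∀ r, 1 ≤ r → r ≤ n → cov r = true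
  | 0, _, r, h1, h2 => by omega
  | n + 1, h, r, h1, h2 => by
    rw [covAll, Bool.and_eq_true] at h
    rcases Nat.lt_or_ge n r with h' | h'
    · have : r = n + 1 := by omega
      rw [this]; exact h.1
    · exact covAll_sound n h.2 r h1 h'

theorem allr_value (G : Good a) {r : ℕ} (h : r ∈ allr) : ∃ N, 1 ≤ N ∧ a N = r := by
  unfold allr at h
  simp only [List.mem_append] at h
  rcases h with (((((((((((h | h) | h) | h) | h) | h) | h) | h) | h) | h) | h) | h)
  · exact okTab_sound G (St.root G) tab0_ok r h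
  · exact okTab_sound G (st_1_5 G) tab1_ok r h
  · exact okTab_sound G (st_5_3 G) tab2_ok r h
  · exact okTab_sound G (st_7_5 G) tab3_ok r h
  · exact okTab_sound G (st_7_3 G) tab4_ok r h
  · exact okTab_sound G (st_1_7 G) tab5_ok r h
  · exact okTab_sound G (st_3_11 G) tab6_ok r h
  · exact okTab_sound G (st_11_3 G) tab7_ok r h
  · exact okTab_sound G (st_9_5 G) tab8_ok r h
  · exact okTab_sound G (st_11_7 G) tab9_ok r h
  · exact okTab_sound G (st_11_5 G) tab10_ok r h
  · exact okTab_sound G (st_23_3 G) tab11_ok r h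

end Pool.Agent.HalfDiff.SD
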