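import Pool.Agent.HalfDiff.SD.Basic

namespace Pool.Agent.HalfDiff.SD

variable {a : ℕ → ℕ}

theorem st_1_5 (G : Good a) : St a (2 ^ 9 * (1) + 55 + 1) 1 (4 + 1) :=
  state_of G (K := 9) (k := 2) (o := 55) (A := 3105) (J := 5) (w := 4) (v := 1) (St.root G)
    (by norm_num) (by norm_num) (by decide +kernel) (by norm_num) (by decide +kernel)
    (by norm_num) (by decide +kernel) (by decide +kernel)
    (fun l h1 h2 => by interval_cases l <;> decide +kernel)

theorem mult_5_1_1 (G : Good a) : ∃ c, Law a c (4 + 1) :=
  mult_of G (K := 9) (k := 2) (o := 55) (A := 3105) (J := 5) (w := 4) (St.root G)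
    (by norm_num) (by norm_num) (by decide +kernel) (by norm_num) (by decide +kernel)
    (by norm_num) (by decide +kernel)

theorem st_5_3 (G : Good a) : St a (2 ^ 9 * (1) + 121 + 1) 5 (2 + 1) :=
  state_of G (K := 9) (k := 2) (o := 121) (A := 5137) (J := 5) (w := 2) (v := 5) (St.root G)
    (by norm_num) (by norm_num) (by decide +kernel) (by norm_num) (by decide +kernel)
    (by norm_num) (by decide +kernel) (by decide +kernel)
    (fun l h1 h2 => by interval_cases l <;> decide +kernel)

theorem st_7_5 (G : Good a) : St a (2 ^ 10 * (1) + 347 + 1) 7 (4 + 1) :=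
  state_of G (K := 10) (k := 2) (o := 347) (A := 16474) (J := 5) (w := 4) (v := 7) (St.root G)
    (by norm_num) (by norm_num) (by decide +kernel) (by norm_num) (by decide +kernel)
    (by norm_num) (by decide +kernel) (by decide +kernel)
    (fun l h1 h2 => by interval_cases l <;> decide +kernel)

theorem st_7_3 (G : Good a) : St a (2 ^ 12 * (1) + 419 + 1) 7 (2 + 1) :=
  state_of G (K := 12) (k := 2) (o := 419) (A := 44306) (J := 6) (w := 2) (v := 7) (St.root G)
    (by norm_num) (by norm_num) (by decide +kernel) (by norm_num) (by decide +kernel)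
    (by norm_num) (by decide +kernel) (by decide +kernel)
    (fun l h1 h2 => by interval_cases l <;> decide +kernel)

theorem st_1_7 (G : Good a) : St a (2 ^ 12 * (1) + 989 + 1) 1 (6 + 1) :=
  state_of G (K := 12) (k := 2) (o := 989) (A := 72608) (J := 6) (w := 6) (v := 1) (St.root G)
    (by norm_num) (by norm_num) (by decide +kernel) (by norm_num) (by decide +kernel)
    (by norm_num) (by decide +kernel) (by decide +kernel)
    (fun l h1 h2 => by interval_cases l <;> decide +kernel)

theorem mult_7_1_1 (G : Good a) : ∃ c, Law a c (6 + 1) :=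
  mult_of G (K := 12) (k := 2) (o := 989) (A := 72608) (J := 6) (w := 6) (St.root G)
    (by norm_num) (by norm_num) (by decide +kernel) (by norm_num) (by decide +kernel)
    (by norm_num) (by decide +kernel)

theorem st_3_11 (G : Good a) : St a (2 ^ 8 * (2 ^ 9 * (1) + 55 + 1) + 179 + 1) 3 (10 + 1) :=
  state_of G (K := 8) (k := 3) (o := 179) (A := 35899) (J := 6) (w := 10) (v := 3) (st_1_5 G)
    (by norm_num) (by norm_num) (by decide +kernel) (by norm_num) (by decide +kernel)
    (by norm_num) (by decide +kernel) (by decide +kernel)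
    (fun l h1 h2 => by interval_cases l <;> decide +kernel)

theorem mult_11_1_5 (G : Good a) : ∃ c, Law a c (10 + 1) :=
  mult_of G (K := 8) (k := 3) (o := 179) (A := 35899) (J := 6) (w := 10) (st_1_5 G)
    (by norm_num) (by norm_num) (by decide +kernel) (by norm_num) (by decide +kernel)
    (by norm_num) (by decide +kernel)

theorem mult_13_5_3 (G : Good a) : ∃ c, Law a c (12 + 1) :=
  mult_of G (K := 8) (k := 5) (o := 161) (A := 154567) (J := 6) (w := 12) (st_5_3 G)
    (by norm_num) (by norm_num) (by decide +kernel) (by norm_num) (by decide +kernel)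
    (by norm_num) (by decide +kernel)

theorem st_11_3 (G : Good a) : St a (2 ^ 8 * (2 ^ 8 * (2 ^ 9 * (1) + 55 + 1) + 179 + 1) + 191 + 1) 11 (2 + 1) :=
  state_of G (K := 8) (k := 3) (o := 191) (A := 81407) (J := 7) (w := 2) (v := 11) (st_3_11 G)
    (by norm_num) (by norm_num) (by decide +kernel) (by norm_num) (by decide +kernel)
    (by norm_num) (by decide +kernel) (by decide +kernel)
    (fun l h1 h2 => by interval_cases l <;> decide +kernel)

theorem st_9_5 (G : Good a) : St a (2 ^ 8 * (2 ^ 12 * (1) + 419 + 1) + 221 + 1) 9 (4 + 1) :=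
  state_of G (K := 8) (k := 3) (o := 221) (A := 58011) (J := 7) (w := 4) (v := 9) (st_7_3 G)
    (by norm_num) (by norm_num) (by decide +kernel) (by norm_num) (by decide +kernel)
    (by norm_num) (by decide +kernel) (by decide +kernel)
    (fun l h1 h2 => by interval_cases l <;> decide +kernel)

theorem st_11_7 (G : Good a) : St a (2 ^ 12 * (2 ^ 9 * (1) + 121 + 1) + 1973 + 1) 11 (6 + 1) :=
  state_of G (K := 12) (k := 2) (o := 1973) (A := 280374) (J := 7) (w := 6) (v := 11) (st_5_3 G)
    (by norm_num) (by norm_num) (by decide +kernel) (by norm_num) (by decide +kernel)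
    (by norm_num) (by decide +kernel) (by decide +kernel)
    (fun l h1 h2 => by interval_cases l <;> decide +kernel)

theorem st_11_5 (G : Good a) : St a (2 ^ 11 * (2 ^ 10 * (1) + 347 + 1) + 1813 + 1) 11 (4 + 1) :=
  state_of G (K := 11) (k := 2) (o := 1813) (A := 315669) (J := 7) (w := 4) (v := 11) (st_7_5 G)
    (by norm_num) (by norm_num) (by decide +kernel) (by norm_num) (by decide +kernel)
    (by norm_num) (by decide +kernel) (by decide +kernel)
    (fun l h1 h2 => by interval_cases l <;> decide +kernel)

theorem st_23_3 (G : Good a) : St a (2 ^ 12 * (2 ^ 8 * (2 ^ 12 * (1) + 419 + 1) + 221 + 1) + 2423 + 1) 23 (2 + 1) :=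
  state_of G (K := 12) (k := 2) (o := 2423) (A := 653326) (J := 8) (w := 2) (v := 23) (st_9_5 G)
    (by norm_num) (by norm_num) (by decide +kernel) (by norm_num) (by decide +kernel)
    (by norm_num) (by decide +kernel) (by decide +kernel)
    (fun l h1 h2 => by interval_cases l <;> decide +kernel)

end Pool.Agent.HalfDiff.SD
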