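import Pool.Agent.HalfDiff.SD.CertA

namespace Pool.Agent.HalfDiff.SD

variable {a : ℕ → ℕ}

theorem mult_17_11_7 (G : Good a) : ∃ c, Law a c (16 + 1) :=
  mult_of G (K := 11) (k := 4) (o := 703) (A := 1328435) (J := 8) (w := 16) (st_11_7 G)
    (by norm_num) (by norm_num) (by decide +kernel) (by norm_num) (by decide +kernel)
    (by norm_num) (by decide +kernel)

theorem mult_19_11_3 (G : Good a) : ∃ c, Law a c (18 + 1) :=
  mult_of G (K := 10) (k := 5) (o := 419) (A := 995527) (J := 8) (w := 18) (st_11_3 G)
    (by norm_num) (by norm_num) (by decide +kernel) (by norm_num) (by decide +kernel)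
    (by norm_num) (by decide +kernel)

theorem mult_23_7_5 (G : Good a) : ∃ c, Law a c (22 + 1) :=
  mult_of G (K := 11) (k := 7) (o := 175) (A := 6152832) (J := 10) (w := 22) (st_7_5 G)
    (by norm_num) (by norm_num) (by decide +kernel) (by norm_num) (by decide +kernel)
    (by norm_num) (by decide +kernel)

theorem mult_41_11_5 (G : Good a) : ∃ c, Law a c (40 + 1) :=
  mult_of G (K := 6) (k := 6) (o := 47) (A := 196300) (J := 8) (w := 40) (st_11_5 G)
    (by norm_num) (by norm_num) (by decide +kernel) (by norm_num) (by decide +kernel)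
    (by norm_num) (by decide +kernel)

theorem mult_43_23_3 (G : Good a) : ∃ c, Law a c (42 + 1) :=
  mult_of G (K := 11) (k := 5) (o := 265) (A := 1207544) (J := 9) (w := 42) (st_23_3 G)
    (by norm_num) (by norm_num) (by decide +kernel) (by norm_num) (by decide +kernel)
    (by norm_num) (by decide +kernel)

end Pool.Agent.HalfDiff.SD
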